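import Mathlib

set_option autoImplicit false

namespace Pool.Agent.X128.DO

open Cardinal Set Relation

universe u v

variable {V : Type u} {G : SimpleGraph V}

/-- `D` is an orientation of the graph `G`. -/
def IsOrientation (G : SimpleGraph V) (D : V → V → Prop) : Prop :=
  (∀ a b, D a b → G.Adj a b) ∧ (∀ a b, G.Adj a b → D a b ∨ D b a) ∧ ∀ a b, D a b → ¬ D b a

/-- The set `S` contains no directed cycle (equivalently, no directed closed walk) of `D`. -/
def Acyc (D : V → V → Prop) (S : Set V) : Prop :=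
  ∀ a, ¬ TransGen (fun x y => x ∈ S ∧ y ∈ S ∧ D x y) a a

/-- The dichromatic number: the least cardinality of a set of colours for which there is a
colouring of the vertices whose colour classes contain no directed cycle. -/
noncomputable def chi (D : V → V → Prop) : Cardinal.{u} :=
  sInf {c | ∃ (ι : Type u) (f : V → ι), #ι = c ∧ ∀ i, Acyc D (f ⁻¹' {i})}

/-- relative version -/
noncomputable def chiOn (D : V → V → Prop) (B : Set V) : Cardinal.{u} :=
  sInf {c | ∃ (ι : Type u) (f : V → ι), #ι = c ∧ ∀ i, Acyc D (B ∩ f ⁻¹' {i})}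

lemma chi_eq (D : V → V → Prop) : chi D = chiOn D univ := by
  simp only [chi, chiOn, univ_inter]

variable {D : V → V → Prop} {A B S T : Set V}

lemma tmono {r p : V → V → Prop} (h : ∀ x y, r x y → p x y) {a b : V} (hab : TransGen r a b) :
    TransGen p a b := by
  induction hab with
  | single h' => exact TransGen.single (h _ _ h')
  | tail _ h' ih => exact ih.tail (h _ _ h')

lemma Acyc.mono (h : S ⊆ T) (hT : Acyc D T) : Acyc D S := fun a ha =>
  hT a (tmono (fun _ _ hxy => ⟨h hxy.1, h hxy.2.1, hxy.2.2⟩) ha)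

lemma acyc_empty : Acyc D (∅ : Set V) := by
  intro a ha
  obtain ⟨c, h, _⟩ := TransGen.head'_iff.mp ha
  exact h.1

lemma acyc_singleton (hD : ∀ a b, D a b → ¬ D b a) (v : V) : Acyc D {v} := by
  intro a ha
  obtain ⟨c, h, _⟩ := TransGen.head'_iff.mp ha
  obtain ⟨h1, h2, h3⟩ := h
  rw [mem_singleton_iff] at h1 h2
  subst h1 h2
  exact hD _ _ h3 h3

lemma chiOn_le {ι : Type u} (f : V → ι) (h : ∀ i, Acyc D (B ∩ f ⁻¹' {i})) : chiOn D B ≤ #ι :=
  csInf_le' ⟨ι, f, rfl, h⟩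

lemma exists_col (hD : ∀ a b, D a b → ¬ D b a) (B : Set V) :
    ∃ (ι : Type u) (f : V → ι), #ι = chiOn D B ∧ ∀ i, Acyc D (B ∩ f ⁻¹' {i}) := by
  have hne : {c | ∃ (ι : Type u) (f : V → ι), #ι = c ∧ ∀ i, Acyc D (B ∩ f ⁻¹' {i})}.Nonempty :=
    ⟨#V, V, id, rfl, fun i => (acyc_singleton hD i).mono (by simp)⟩
  exact csInf_mem hne

lemma exists_col_of_le (hD : ∀ a b, D a b → ¬ D b a) {ι : Type u} (h : chiOn D B ≤ #ι) :
    ∃ f : V → ι, ∀ i, Acyc D (B ∩ f ⁻¹' {i}) := by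
  obtain ⟨ι₀, f₀, h1, h2⟩ := exists_col hD B
  rw [← h1, Cardinal.le_def] at h
  obtain ⟨e⟩ := h
  refine ⟨fun v => e (f₀ v), fun i => ?_⟩
  by_cases hi : ∃ j, e j = i
  · obtain ⟨j, rfl⟩ := hi
    refine (h2 j).mono ?_
    rintro x ⟨hx1, hx2⟩
    exact ⟨hx1, e.injective hx2⟩
  · refine acyc_empty.mono ?_
    rintro x ⟨_, hx2⟩
    exact hi ⟨_, hx2⟩

lemma chiOn_mono (hD : ∀ a b, D a b → ¬ D b a) (h : A ⊆ B) : chiOn D A ≤ chiOn D B := by
  obtain ⟨ι, f, h1, h2⟩ := exists_col hD B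
  rw [← h1]
  exact chiOn_le f fun i => (h2 i).mono (inter_subset_inter_left _ h)

lemma chiOn_union (hD : ∀ a b, D a b → ¬ D b a) (A B : Set V) :
    chiOn D (A ∪ B) ≤ chiOn D A + chiOn D B := by
  classical
  obtain ⟨ι, f, h1, h2⟩ := exists_col hD A
  obtain ⟨ι', f', h1', h2'⟩ := exists_col hD B
  rw [← h1, ← h1', add_def]
  refine chiOn_le (fun v => if v ∈ A then Sum.inl (f v) else Sum.inr (f' v)) ?_
  rintro (i | i)
  · refine (h2 i).mono ?_
    rintro x ⟨_, hx2⟩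
    simp only [mem_preimage, mem_singleton_iff] at hx2
    split_ifs at hx2 with h
    · exact ⟨h, Sum.inl_injective hx2⟩
  · refine (h2' i).mono ?_
    rintro x ⟨hx1, hx2⟩
    simp only [mem_preimage, mem_singleton_iff] at hx2
    split_ifs at hx2 with h
    exact ⟨hx1.resolve_left h, Sum.inr_injective hx2⟩

lemma chiOn_iUnion (hD : ∀ a b, D a b → ¬ D b a) {J : Type u} (A : J → Set V) (c : Cardinal.{u})
    (hc : ∀ j, chiOn D (A j) ≤ c) : chiOn D (⋃ j, A j) ≤ #J * c + 1 := by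
  classical
  have h0 : ∀ j, chiOn D (A j) ≤ #c.out := fun j => by rw [mk_out]; exact hc j
  choose f hf using fun j => exists_col_of_le hD (h0 j)
  have e1 : #J * c + 1 = #((J × c.out) ⊕ PUnit.{u+1}) := by simp
  rw [e1]
  refine chiOn_le (fun v => if h : ∃ j, v ∈ A j then Sum.inl (h.choose, f h.choose v)
    else Sum.inr PUnit.unit) ?_
  rintro (⟨j, i⟩ | i)
  · refine (hf j i).mono ?_
    rintro x ⟨_, hx2⟩
    simp only [mem_preimage, mem_singleton_iff] at hx2
    split_ifs at hx2 with h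
    have h3 := Sum.inl_injective hx2
    have h4 : h.choose = j := (Prod.ext_iff.mp h3).1
    have h5 : f h.choose x = i := (Prod.ext_iff.mp h3).2
    have h6 := h.choose_spec
    rw [h4] at h5 h6
    exact ⟨h6, h5⟩
  · refine acyc_empty.mono ?_
    rintro x ⟨hx1, hx2⟩
    simp only [mem_preimage, mem_singleton_iff] at hx2
    rw [dif_pos (mem_iUnion.mp hx1)] at hx2
    exact absurd hx2 Sum.inl_ne_inr

lemma chiOn_le_mk (hD : ∀ a b, D a b → ¬ D b a) (B : Set V) : chiOn D B ≤ #B + 1 := by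
  classical
  have e1 : #B + 1 = #(B ⊕ PUnit.{u+1}) := by simp
  rw [e1]
  refine chiOn_le (fun v => if h : v ∈ B then Sum.inl ⟨v, h⟩ else Sum.inr PUnit.unit) ?_
  rintro (⟨w, hw⟩ | i)
  · refine (acyc_singleton hD w).mono ?_
    rintro x ⟨hx1, hx2⟩
    simp only [mem_preimage, mem_singleton_iff] at hx2
    rw [dif_pos hx1] at hx2
    have := Sum.inl_injective hx2
    exact congrArg Subtype.val this
  · refine acyc_empty.mono ?_
    rintro x ⟨hx1, hx2⟩
    simp only [mem_preimage, mem_singleton_iff] at hx2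
    rw [dif_pos hx1] at hx2
    exact absurd hx2 Sum.inl_ne_inr

/-! ### Ordered sums -/

/-- ordered sum of orientations of the fibres of `r` -/
def glue {L : Type v} [LinearOrder L] (G : SimpleGraph V) (r : V → L) (E : L → V → V → Prop) :
    V → V → Prop :=
  fun a b => G.Adj a b ∧ (r a < r b ∨ (r a = r b ∧ E (r a) a b))

variable {L : Type v} [LinearOrder L] {r : V → L} {E : L → V → V → Prop}

lemma glue_orient (hE : ∀ l, IsOrientation G (E l)) : IsOrientation G (glue G r E) := by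
  refine ⟨fun a b h => h.1, fun a b h => ?_, fun a b h h' => ?_⟩
  · rcases lt_trichotomy (r a) (r b) with h1 | h1 | h1
    · exact Or.inl ⟨h, Or.inl h1⟩
    · rcases (hE (r a)).2.1 a b h with h2 | h2
      · exact Or.inl ⟨h, Or.inr ⟨h1, h2⟩⟩
      · exact Or.inr ⟨h.symm, Or.inr ⟨h1.symm, h1 ▸ h2⟩⟩
    · exact Or.inr ⟨h.symm, Or.inl h1⟩
  · rcases h.2 with h1 | ⟨h1, h2⟩
    · rcases h'.2 with h3 | ⟨h3, _⟩
      · exact lt_asymm h1 h3
      · exact h1.ne' h3
    · rcases h'.2 with h3 | ⟨_, h4⟩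
      · exact h3.ne' h1
      · rw [← h1] at h4
        exact (hE (r a)).2.2 a b h2 h4

lemma glue_mono {S : Set V} {a b : V}
    (h : TransGen (fun x y => x ∈ S ∧ y ∈ S ∧ glue G r E x y) a b) : r a ≤ r b := by
  have hstep : ∀ x y, (x ∈ S ∧ y ∈ S ∧ glue G r E x y) → r x ≤ r y := by
    rintro x y ⟨_, _, _, h1 | ⟨h1, _⟩⟩
    · exact h1.le
    · exact h1.le
  induction h with
  | single h => exact hstep _ _ h
  | tail _ h ih => exact ih.trans (hstep _ _ h)

lemma glue_cycle {S : Set V} {a : V} (b : V)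
    (h : TransGen (fun x y => x ∈ S ∧ y ∈ S ∧ glue G r E x y) a b) (hb : r b ≤ r a) :
    TransGen (fun x y => x ∈ r ⁻¹' {r a} ∩ S ∧ y ∈ r ⁻¹' {r a} ∩ S ∧ E (r a) x y) a b := by
  induction h with
  | single h =>
    obtain ⟨h1, h2, h3, h4⟩ := h
    rcases h4 with h4 | ⟨h4, h5⟩
    · exact absurd h4 hb.not_gt
    · exact TransGen.single ⟨⟨rfl, h1⟩, ⟨h4.symm, h2⟩, h5⟩
  | tail hac h ih =>
    rename_i c b
    obtain ⟨h1, h2, h3, h4⟩ := h
    have h5 := glue_mono hac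
    have h6 : r c ≤ r b := by
      rcases h4 with h4 | ⟨h4, _⟩
      · exact h4.le
      · exact h4.le
    have h7 : r c = r a := le_antisymm (h6.trans hb) h5
    have h8 : r b = r a := le_antisymm hb (h5.trans h6)
    rcases h4 with h4 | ⟨_, h4⟩
    · rw [h7, h8] at h4
      exact absurd h4 (lt_irrefl _)
    · rw [h7] at h4
      exact (ih h7.le).tail ⟨⟨h7, h1⟩, ⟨h8, h2⟩, h4⟩

lemma chi_glue_le (hE : ∀ l, IsOrientation G (E l)) {κ : Cardinal.{u}}
    (h : ∀ l, chiOn (E l) (r ⁻¹' {l}) ≤ κ) : chiOn (glue G r E) univ ≤ κ := by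
  have h0 : ∀ l, chiOn (E l) (r ⁻¹' {l}) ≤ #κ.out := fun l => by rw [mk_out]; exact h l
  choose f hf using fun l => exists_col_of_le (hE l).2.2 (h0 l)
  conv_rhs => rw [← mk_out κ]
  refine chiOn_le (fun v => f (r v) v) fun i a ha => ?_
  refine hf (r a) i a (tmono ?_ (glue_cycle a ha le_rfl))
  rintro x y ⟨⟨hx1, _, hx2⟩, ⟨hy1, _, hy2⟩, hxy⟩
  simp only [mem_preimage, mem_singleton_iff] at hx1 hx2 hy1 hy2
  rw [hx1] at hx2
  rw [hy1] at hy2
  exact ⟨⟨hx1, hx2⟩, ⟨hy1, hy2⟩, hxy⟩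

lemma le_chi_glue (hE : ∀ l, IsOrientation G (E l)) (l : L) :
    chiOn (E l) (r ⁻¹' {l}) ≤ chiOn (glue G r E) univ := by
  obtain ⟨ι, f, h1, h2⟩ := exists_col (glue_orient (r := r) hE).2.2 univ
  rw [← h1]
  refine chiOn_le f fun i a ha => h2 i a (tmono ?_ ha)
  rintro x y ⟨⟨hx1, hx2⟩, ⟨hy1, hy2⟩, hxy⟩
  simp only [mem_preimage, mem_singleton_iff] at hx1 hx2 hy1 hy2
  refine ⟨⟨mem_univ _, hx2⟩, ⟨mem_univ _, hy2⟩, (hE l).1 _ _ hxy, Or.inr ⟨?_, ?_⟩⟩
  · rw [hx1, hy1]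
  · rw [hx1]; exact hxy

lemma glue_family {Ξ : Type u} {D : Ξ → V → V → Prop} {κ : Cardinal.{u}} {I : Type v}
    (hD : ∀ ξ, IsOrientation G (D ξ)) (hle : ∀ ξ, chiOn (D ξ) univ ≤ κ) (ξ₀ : Ξ)
    (A : I → Set V) (hA : Pairwise (Function.onFun Disjoint A)) (s : I → Ξ)
    (h : ∀ c < κ, ∃ i, c < chiOn (D (s i)) (A i)) :
    ∃ E, IsOrientation G E ∧ chiOn E univ = κ := by
  classical
  obtain ⟨_, _⟩ := exists_wellFoundedLT (Option I)
  set r : V → Option I := fun v => if h : ∃ i, v ∈ A i then some h.choose else none with hr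
  set E : Option I → V → V → Prop := fun l => D (l.elim ξ₀ s) with hE
  have hEo : ∀ l, IsOrientation G (E l) := fun l => hD _
  refine ⟨glue G r E, glue_orient hEo, le_antisymm (chi_glue_le hEo fun l => ?_) ?_⟩
  · exact (chiOn_mono (hD _).2.2 (subset_univ _)).trans (hle _)
  · refine le_of_forall_lt fun c hc => ?_
    obtain ⟨i, hi⟩ := h c hc
    refine hi.trans_le (le_trans ?_ (le_chi_glue hEo (some i)))
    refine chiOn_mono (hD _).2.2 fun v hv => ?_
    have hex : ∃ i, v ∈ A i := ⟨i, hv⟩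
    have h1 : hex.choose = i := by
      by_contra hne
      exact (disjoint_left.mp (hA hne)) hex.choose_spec hv
    simp only [mem_preimage, mem_singleton_iff, hr]
    rw [dif_pos hex, h1]

end Pool.Agent.X128.DO
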