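import Pool.Agent.X128.DO.Basic

set_option autoImplicit false
set_option linter.deprecated false

namespace Pool.Agent.X128.DO

open Cardinal Set Relation

universe u v

variable {V : Type u} {G : SimpleGraph V} {κ : Cardinal.{u}} {Ξ : Type u} {D : Ξ → V → V → Prop}

/-- a counterexample -/
structure Bad (G : SimpleGraph V) (κ : Cardinal.{u}) {Ξ : Type u} (D : Ξ → V → V → Prop) :
    Prop where
  inf : ℵ₀ ≤ κ
  ori : ∀ ξ, IsOrientation G (D ξ)
  lt : ∀ ξ, chiOn (D ξ) univ < κ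
  unb : ∀ c < κ, ∃ ξ, c < chiOn (D ξ) univ
  no : ¬ ∃ E, IsOrientation G E ∧ chiOn E univ = κ

def Small (κ : Cardinal.{u}) {Ξ : Type u} (D : Ξ → V → V → Prop) (B : Set V) : Prop :=
  ∃ c < κ, ∀ ξ, chiOn (D ξ) B ≤ c

lemma Bad.nonempty (h : Bad G κ D) : Nonempty Ξ :=
  let ⟨ξ, _⟩ := h.unb 0 (aleph0_pos.trans_le h.inf)
  ⟨ξ⟩

lemma Bad.family (h : Bad G κ D) {I : Type v} (A : I → Set V)
    (hA : Pairwise (Function.onFun Disjoint A)) (s : I → Ξ) :
    ∃ c < κ, ∀ i, chiOn (D (s i)) (A i) ≤ c := by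
  by_contra hcon
  push Not at hcon
  obtain ⟨ξ₀⟩ := h.nonempty
  exact h.no (glue_family h.ori (fun ξ => (h.lt ξ).le) ξ₀ A hA s hcon)

lemma Small.mono (h : Bad G κ D) {A B : Set V} (hAB : A ⊆ B) (hB : Small κ D B) :
    Small κ D A := by
  obtain ⟨c, hc, hB⟩ := hB
  exact ⟨c, hc, fun ξ => (chiOn_mono (h.ori ξ).2.2 hAB).trans (hB ξ)⟩

lemma Bad.bounded (h : Bad G κ D) {I : Type v} (A : I → Set V)
    (hA : Pairwise (Function.onFun Disjoint A)) (hs : ∀ i, Small κ D (A i)) :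
    ∃ c < κ, ∀ i ξ, chiOn (D ξ) (A i) ≤ c := by
  obtain ⟨ξ₀⟩ := h.nonempty
  set m : I → Cardinal.{u} := fun i => ⨆ ξ, chiOn (D ξ) (A i) with hmdef
  have hm : ∀ i ξ, chiOn (D ξ) (A i) ≤ m i := fun i ξ => le_ciSup (bddAbove_range _) ξ
  have hmlt : ∀ i, m i < κ := by
    intro i
    obtain ⟨c, hc, hci⟩ := hs i
    exact (ciSup_le' hci).trans_lt hc
  by_contra hcon
  push Not at hcon
  have unbm : ∀ c < κ, ∃ i, c < m i := by
    intro c hc
    obtain ⟨i, ξ, hi⟩ := hcon c hc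
    exact ⟨i, hi.trans_le (hm i ξ)⟩
  have hex : ∀ i, ∃ ξ, ∀ j, m j < m i → (∀ k, m k < m i → m k ≤ m j) →
      m j < chiOn (D ξ) (A i) := by
    intro i
    by_cases hj : ∃ j, m j < m i ∧ ∀ k, m k < m i → m k ≤ m j
    · obtain ⟨j, hj1, hj2⟩ := hj
      obtain ⟨ξ, hξ⟩ := exists_lt_of_lt_ciSup' hj1
      refine ⟨ξ, fun j' h1 h2 => ?_⟩
      have : m j' = m j := le_antisymm (hj2 j' h1) (h2 j hj1)
      rw [this]
      exact hξ
    · exact ⟨ξ₀, fun j h1 h2 => absurd ⟨j, h1, h2⟩ hj⟩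
  choose s hs' using hex
  obtain ⟨c, hc, hcs⟩ := h.family A hA s
  obtain ⟨j, hj⟩ := unbm c hc
  obtain ⟨i₀, hi₀⟩ := unbm (m j) (hmlt j)
  obtain ⟨i, hi, hmin⟩ := (InvImage.wf m Cardinal.lt_wf).has_min {i | m j < m i} ⟨i₀, hi₀⟩
  have h1 := hs' i j hi fun k hk => by
    by_contra hlt
    exact hmin k (not_le.mp hlt) hk
  exact absurd (h1.trans_le (hcs i)) hj.not_gt

lemma Bad.union (h : Bad G κ D) {J : Type u} (B : J → Set V) (hJ : #J < κ)
    (hs : ∀ j, Small κ D (B j)) : Small κ D (⋃ j, B j) := by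
  obtain ⟨_, _⟩ := exists_wellFoundedLT J
  set A : J → Set V := fun j => {v | v ∈ B j ∧ ∀ k < j, v ∉ B k} with hAdef
  have hAB : ∀ j, A j ⊆ B j := fun j v hv => hv.1
  have hA : Pairwise (Function.onFun Disjoint A) := by
    intro i j hij
    rw [Function.onFun, disjoint_left]
    intro v hi hj
    rcases lt_or_gt_of_ne hij with h1 | h1
    · exact hj.2 i h1 hi.1
    · exact hi.2 j h1 hj.1
  have hU : (⋃ j, B j) ⊆ ⋃ j, A j := by
    intro v hv
    obtain ⟨j₀, hj₀⟩ := mem_iUnion.mp hv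
    obtain ⟨j, hj, hmin⟩ := (wellFounded_lt (α := J)).has_min {j | v ∈ B j} ⟨j₀, hj₀⟩
    exact mem_iUnion.mpr ⟨j, hj, fun k hk hvk => hmin k hvk hk⟩
  obtain ⟨c, hc, hb⟩ := h.bounded A hA fun j => (hs j).mono h (hAB j)
  refine ⟨#J * c + 1, ?_, fun ξ => ?_⟩
  · exact add_lt_of_lt h.inf (mul_lt_of_lt h.inf hJ hc) (one_lt_aleph0.trans_le h.inf)
  · exact (chiOn_mono (h.ori ξ).2.2 hU).trans
      (chiOn_iUnion (h.ori ξ).2.2 A c fun j => hb j ξ)

lemma Bad.no_many (h : Bad G κ D) {M : Type u} (k : M → Cardinal.{u}) (hk : ∀ m, k m < κ)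
    (hk2 : ∀ c < κ, ∃ m, c ≤ k m) (B : M → Set V) (hB : Pairwise (Function.onFun Disjoint B)) :
    ∃ m, Small κ D (B m) := by
  by_contra hns
  push Not at hns
  have hex : ∀ m, ∃ ξ, k m < chiOn (D ξ) (B m) := by
    intro m
    by_contra hcon
    push Not at hcon
    exact hns m ⟨k m, hk m, hcon⟩
  choose s hs using hex
  obtain ⟨c, hc, hcs⟩ := h.family B hB s
  obtain ⟨m, hm⟩ := hk2 c hc
  exact absurd (hs m) (((hcs m).trans hm).not_gt)

lemma Bad.univ_not_small (h : Bad G κ D) : ¬ Small κ D univ := by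
  rintro ⟨c, hc, hcs⟩
  obtain ⟨ξ, hξ⟩ := h.unb c hc
  exact absurd hξ (hcs ξ).not_gt

lemma exists_cofinal (κ : Cardinal.{u}) : ∃ (M : Type u) (k : M → Cardinal.{u}),
    #M = κ.ord.cof ∧ (∀ m, k m < κ) ∧ ∀ c < κ, ∃ m, c ≤ k m := by
  obtain ⟨M, f, hf, hM⟩ := Ordinal.exists_lsub_cof κ.ord
  refine ⟨M, fun m => (f m).card, hM, fun m => ?_, fun c hc => ?_⟩
  · rw [← lt_ord, ← hf]
    exact Ordinal.lt_lsub f m
  · have h1 : c.ord < Ordinal.lsub f := by rw [hf]; exact ord_lt_ord.mpr hc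
    rw [Ordinal.lt_lsub_iff] at h1
    obtain ⟨m, hm⟩ := h1
    exact ⟨m, ord_le.mp hm⟩

lemma Bad.not_singular (h : Bad G κ D) (hcof : κ.ord.cof < κ) : False := by
  obtain ⟨M, k₀, hM, hk₀, hk₀2⟩ := exists_cofinal κ
  have hω : ℵ₀ < κ := by
    rcases h.inf.lt_or_eq with h1 | h1
    · exact h1
    · rw [← h1, isRegular_aleph0.cof_ord] at hcof
      exact absurd hcof (lt_irrefl _)
  set k : M → Cardinal.{u} := fun m => max (k₀ m) (max #M ℵ₀) with hk
  have hklt : ∀ m, k m < κ := fun m => max_lt (hk₀ m) (max_lt (hM ▸ hcof) hω)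
  have hk2 : ∀ c < κ, ∃ m, c ≤ k m := fun c hc =>
    let ⟨m, hm⟩ := hk₀2 c hc
    ⟨m, hm.trans (le_max_left _ _)⟩
  choose s hs using fun m => h.unb (k m) (hklt m)
  choose ι f hι hf using fun m => exists_col (h.ori (s m)).2.2 univ
  have hN : ∀ m, #{i : ι m // ¬ Small κ D (f m ⁻¹' {i})} < #M := by
    intro m
    by_contra hcon
    rw [not_lt, Cardinal.le_def] at hcon
    obtain ⟨e⟩ := hcon
    obtain ⟨m', hm'⟩ := h.no_many k hklt hk2 (fun m' => f m ⁻¹' {(e m').1}) (by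
      intro a b hab
      rw [Function.onFun, disjoint_left]
      intro v hv hv'
      simp only [mem_preimage, mem_singleton_iff] at hv hv'
      exact hab (e.injective (Subtype.ext (hv.symm.trans hv'))))
    exact (e m').2 hm'
  set Z : M → Set V := fun m => ⋃ i : {i : ι m // Small κ D (f m ⁻¹' {i})}, f m ⁻¹' {i.1} with hZ
  have hZs : ∀ m, Small κ D (Z m) := by
    intro m
    refine h.union _ ?_ fun i => i.2
    exact (mk_subtype_le _).trans_lt ((hι m).trans_lt (h.lt _))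
  have hZbig : ∀ m, k m < chiOn (D (s m)) (Z m) := by
    intro m
    by_contra hcon
    rw [not_lt] at hcon
    have hasym := (h.ori (s m)).2.2
    set W : Set V := ⋃ i : {i : ι m // ¬ Small κ D (f m ⁻¹' {i})}, f m ⁻¹' {i.1} with hW
    have h1 : chiOn (D (s m)) W ≤ #{i : ι m // ¬ Small κ D (f m ⁻¹' {i})} * 1 + 1 := by
      refine chiOn_iUnion hasym _ 1 fun i => ?_
      have e1 : (1 : Cardinal.{u}) = #PUnit.{u+1} := by simp
      rw [e1]
      refine chiOn_le (fun _ => PUnit.unit) fun _ => (hf m i.1).mono ?_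
      rintro x ⟨hx, _⟩
      exact ⟨mem_univ _, hx⟩
    have h2 : (univ : Set V) ⊆ Z m ∪ W := by
      intro v _
      by_cases hv : Small κ D (f m ⁻¹' {f m v})
      · exact Or.inl (mem_iUnion.mpr ⟨⟨f m v, hv⟩, rfl⟩)
      · exact Or.inr (mem_iUnion.mpr ⟨⟨f m v, hv⟩, rfl⟩)
    have hkinf : ℵ₀ ≤ k m := (le_max_right _ _).trans (le_max_right _ _)
    have h3 : chiOn (D (s m)) univ ≤ k m := by
      calc chiOn (D (s m)) univ ≤ chiOn (D (s m)) (Z m ∪ W) := chiOn_mono hasym h2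
        _ ≤ chiOn (D (s m)) (Z m) + chiOn (D (s m)) W := chiOn_union hasym _ _
        _ ≤ k m + (#M * 1 + 1) := by
          refine add_le_add hcon (h1.trans ?_)
          gcongr
          exact (hN m).le
        _ ≤ k m + (k m * 1 + k m) := by
          gcongr
          · exact (le_max_left _ _).trans (le_max_right _ _)
          · exact one_le_aleph0.trans hkinf
        _ = k m := by rw [mul_one, add_eq_self hkinf, add_eq_self hkinf]
    exact absurd (hs m) h3.not_gt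
  obtain ⟨c, hc, hcs⟩ := h.union Z (hM ▸ hcof) hZs
  obtain ⟨m, hm⟩ := hk2 c hc
  have h4 : chiOn (D (s m)) (Z m) ≤ c :=
    (chiOn_mono (h.ori (s m)).2.2 (subset_iUnion Z m)).trans (hcs (s m))
  exact absurd (hZbig m) (h4.trans hm).not_gt

/-! ### the countable case -/

lemma finite_support {R : V → V → Prop} {a b : V} (h : TransGen R a b) :
    ∃ s : Finset V, TransGen (fun x y => x ∈ s ∧ y ∈ s ∧ R x y) a b := by
  classical
  induction h with
  | @single b h => exact ⟨{a, b}, TransGen.single ⟨by simp, by simp, h⟩⟩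
  | @tail c b _ h ih =>
    obtain ⟨s, hs⟩ := ih
    refine ⟨s ∪ {c, b}, TransGen.tail (tmono ?_ hs) ⟨by simp, by simp, h⟩⟩
    rintro x y ⟨hx, hy, hxy⟩
    exact ⟨Finset.mem_union_left _ hx, Finset.mem_union_left _ hy, hxy⟩

lemma compactness {D : V → V → Prop} (hD : ∀ a b, D a b → ¬ D b a) (n : ℕ) (B : Set V)
    (h : ∀ A : Finset V, (A : Set V) ⊆ B → chiOn D A ≤ n) : chiOn D B ≤ n := by
  classical
  have e1 : (n : Cardinal.{u}) = #(ULift.{u} (Fin n)) := by simp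
  have hex : ∀ s : Finset V, ∃ f : V → ULift.{u} (Fin n), ∀ i,
      Acyc D (((s.filter (· ∈ B) : Finset V) : Set V) ∩ f ⁻¹' {i}) := by
    intro s
    refine exists_col_of_le hD ?_
    rw [← e1]
    refine h _ fun x hx => ?_
    exact (Finset.mem_filter.mp hx).2
  choose g hg using hex
  obtain ⟨χ, hχ⟩ := Finset.rado_selection g
  rw [e1]
  refine chiOn_le χ fun i a ha => ?_
  obtain ⟨s, hs⟩ := finite_support ha
  obtain ⟨t, hst, ht⟩ := hχ s
  refine hg t i a (tmono ?_ hs)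
  rintro x y ⟨hx, hy, ⟨hxB, hxi⟩, ⟨hyB, hyi⟩, hxy⟩
  simp only [mem_preimage, mem_singleton_iff] at hxi hyi
  refine ⟨⟨Finset.mem_filter.mpr ⟨hst hx, hxB⟩, ?_⟩, ⟨Finset.mem_filter.mpr ⟨hst hy, hyB⟩, ?_⟩, hxy⟩
  · exact (ht x hx).symm.trans hxi
  · exact (ht y hy).symm.trans hyi

lemma Bad.not_countable (h : Bad G κ D) (hκ : κ = ℵ₀) : False := by
  classical
  subst hκ
  have hnext : ∀ (n : ℕ) (F : Finset V), ∃ A : Finset V, Disjoint A F ∧
      ∃ ξ, (n : Cardinal.{u}) < chiOn (D ξ) (A : Set V) := by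
    intro n F
    obtain ⟨ξ, hξ⟩ := h.unb ((n + (F.card + 1) : ℕ) : Cardinal.{u}) (natCast_lt_aleph0)
    by_contra hcon
    push Not at hcon
    have hasym := (h.ori ξ).2.2
    have h1 : chiOn (D ξ) ((F : Set V)ᶜ) ≤ n := compactness hasym n _ fun A hA =>
      hcon A (by
        rw [Finset.disjoint_left]
        intro x hx hxF
        exact hA hx hxF) ξ
    have h2 : chiOn (D ξ) univ ≤ chiOn (D ξ) ((F : Set V)ᶜ) + chiOn (D ξ) (F : Set V) :=
      (chiOn_mono hasym (by rw [compl_union_self])).trans (chiOn_union hasym _ _)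
    have h3 : chiOn (D ξ) (F : Set V) ≤ F.card + 1 := by
      have := chiOn_le_mk hasym (F : Set V)
      simpa using this
    have h4 : chiOn (D ξ) univ ≤ ((n + (F.card + 1) : ℕ) : Cardinal.{u}) := by
      push_cast
      exact h2.trans (add_le_add h1 h3)
    exact absurd hξ h4.not_gt
  choose nx hnx1 hnx2 using hnext
  set U : ℕ → Finset V := fun n => Nat.rec ∅ (fun n U => U ∪ nx n U) n with hU
  have hUs : ∀ n, U (n + 1) = U n ∪ nx n (U n) := fun n => rfl
  have hUm : Monotone U := monotone_nat_of_le_succ fun n => by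
    rw [hUs]; exact Finset.subset_union_left
  have hdis : ∀ i j, i < j → Disjoint (nx i (U i)) (nx j (U j)) := by
    intro i j hij
    have h1 : nx i (U i) ⊆ U j := by
      have h2 : U (i + 1) ⊆ U j := hUm hij
      rw [hUs] at h2
      exact Finset.subset_union_right.trans h2
    exact (Finset.disjoint_of_subset_right h1 (hnx1 j (U j))).symm
  have hA : Pairwise (Function.onFun Disjoint fun n => ((nx n (U n) : Finset V) : Set V)) := by
    intro i j hij
    rw [Function.onFun, Finset.disjoint_coe]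
    rcases lt_or_gt_of_ne hij with h1 | h1
    · exact hdis i j h1
    · exact (hdis j i h1).symm
  choose s hs using fun n => hnx2 n (U n)
  obtain ⟨c, hc, hcs⟩ := h.family (fun n => ((nx n (U n) : Finset V) : Set V)) hA s
  obtain ⟨m, rfl⟩ := Cardinal.lt_aleph0.mp hc
  exact absurd (hs m) (hcs m).not_gt

end Pool.Agent.X128.DO
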